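import Pool.Agent.LPR.Stmts

/-!
# Squad LPR, row FLO: flow boxes
-/

set_option autoImplicit false

open Set Topology MeasureTheory

namespace Pool.Agent.LPR.H41

open Pool.Agent.LSG Pool.Agent.LPR

/-- **FLO** -/
theorem flo : FloStmt := by
  rintro X _ _ φ hφ h0 hadd p ⟨τ, hτ⟩
  let _ := TopologicalSpace.metrizableSpaceMetric X
  obtain ⟨f, hf, hfp, hfq⟩ : ∃ f : X → ℝ, Continuous f ∧ f p = 0 ∧ f (φ τ p) = 1 := by
    have hd : dist (φ τ p) p ≠ 0 := by rwa [dist_ne_zero]
    exact ⟨fun x => dist x p / dist (φ τ p) p, by fun_prop, by simp, div_self hd⟩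
  let F : X → ℝ := fun x => ∫ u in (0 : ℝ)..τ, f (φ u x)
  have hF : Continuous F := by
    apply intervalIntegral.continuous_parametric_intervalIntegral_of_continuous'
    exact hf.comp (hφ.comp (continuous_snd.prodMk continuous_fst))
  have hφc : ∀ x, Continuous fun u => φ u x := fun x =>
    hφ.comp (continuous_id.prodMk continuous_const)
  have hφx : ∀ t, Continuous (φ t) := fun t => hφ.comp (continuous_const.prodMk continuous_id)
  have hg : ∀ x, Continuous fun u => f (φ u x) := fun x => hf.comp (hφc x)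
  have hG : ∀ x t, F (φ t x) = ∫ u in t..(t + τ), f (φ u x) := by
    intro x t
    have h1 : F (φ t x) = ∫ u in (0 : ℝ)..τ, f (φ (u + t) x) := by
      simp only [F, hadd]
    rw [h1, intervalIntegral.integral_comp_add_right (fun u => f (φ u x)) t, zero_add,
      add_comm τ t]
  let h : X → ℝ := fun x => f (φ τ x) - f x
  have hh : Continuous h := (hf.comp (hφx τ)).sub hf
  have hdiff : ∀ x t t', F (φ t' x) - F (φ t x) = ∫ u in t..t', h (φ u x) := by
    intro x t t'
    have hi : ∀ a b : ℝ, IntervalIntegrable (fun u => f (φ u x)) volume a b := fun a b =>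
      (hg x).intervalIntegrable a b
    have h2 : ∫ u in t..t', h (φ u x) =
        (∫ u in t..t', f (φ (τ + u) x)) - ∫ u in t..t', f (φ u x) := by
      rw [← intervalIntegral.integral_sub]
      · simp only [h, hadd]
      · exact ((hg x).comp (continuous_const.add continuous_id)).intervalIntegrable _ _
      · exact hi _ _
    rw [h2, hG, hG, intervalIntegral.integral_interval_sub_interval_comm (hi _ _) (hi _ _)
      (hi _ _), intervalIntegral.integral_comp_add_left (fun u => f (φ u x)) τ,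
      intervalIntegral.integral_symm t t', intervalIntegral.integral_symm (t + τ) (t' + τ),
      add_comm τ t, add_comm τ t']
    ring
  -- the neighbourhood
  have hW0 : IsOpen {q : ℝ × X | 1 / 2 < h (φ q.1 q.2)} :=
    isOpen_lt continuous_const (hh.comp hφ)
  have hp0 : ((0 : ℝ), p) ∈ {q : ℝ × X | 1 / 2 < h (φ q.1 q.2)} := by
    simp only [mem_ofPred_eq, h0, h, hfq, hfp]
    norm_num
  obtain ⟨ε, hε, hball⟩ := Metric.isOpen_iff.1 hW0 _ hp0
  let W : Set X := Metric.ball p ε
  let δ : ℝ := ε / 3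
  have hδ : 0 < δ := by positivity
  have hWh : ∀ x ∈ W, ∀ t : ℝ, |t| ≤ 2 * δ → 1 / 2 < h (φ t x) := by
    intro x hx t ht
    apply hball (a := (t, x))
    rw [Metric.mem_ball, Prod.dist_eq, max_lt_iff]
    refine ⟨?_, hx⟩
    rw [Real.dist_eq, sub_zero]
    have : 2 * δ < ε := by simp only [δ]; linarith
    linarith
  have hpos : ∀ x ∈ W, ∀ t t' : ℝ, t ≤ t' → |t| ≤ 2 * δ → |t'| ≤ 2 * δ →
      (t' - t) / 2 ≤ F (φ t' x) - F (φ t x) := by
    intro x hx t t' htt ht ht'
    rw [hdiff]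
    have h3 : ∫ u in t..t', (1 / 2 : ℝ) ≤ ∫ u in t..t', h (φ u x) := by
      apply intervalIntegral.integral_mono_on htt
      · exact intervalIntegrable_const
      · exact (hh.comp (hφc x)).intervalIntegrable _ _
      · intro u hu
        refine (hWh x hx u ?_).le
        rw [abs_le] at ht ht' ⊢
        exact ⟨ht.1.trans hu.1, hu.2.trans ht'.2⟩
    rw [intervalIntegral.integral_const, smul_eq_mul] at h3
    linarith
  have hkey : ∀ x ∈ W, ∀ s : ℝ, |s| ≤ 2 * δ → |s| / 2 ≤ |F (φ s x) - F x| := by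
    intro x hx s hs
    have hz : |(0 : ℝ)| ≤ 2 * δ := by simp; positivity
    rcases le_total 0 s with hs0 | hs0
    · have := hpos x hx 0 s hs0 hz hs
      rw [h0, sub_zero] at this
      rw [abs_of_nonneg hs0]
      exact this.trans (le_abs_self _)
    · have := hpos x hx s 0 hs0 hs hz
      rw [h0, zero_sub] at this
      rw [abs_of_nonpos hs0, abs_sub_comm]
      exact this.trans (le_abs_self _)
  let S : Set X := {x | x ∈ W ∧ F x = F p}
  let b : ↥S × ↥(Icc (-δ) δ) → X := fun z => φ z.2 z.1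
  have hb : Continuous b :=
    hφ.comp ((continuous_subtype_val.comp continuous_snd).prodMk
      (continuous_subtype_val.comp continuous_fst))
  have hback : ∀ z : ↥S × ↥(Icc (-δ) δ), ∀ t : ℝ,
      φ (-t) (b z) = φ ((z.2 : ℝ) - t) (z.1 : X) := by
    intro z t
    simp only [b]
    rw [← hadd]
    congr 1
    ring
  have hest : ∀ z z₀ : ↥S × ↥(Icc (-δ) δ),
      |(z.2 : ℝ) - z₀.2| ≤ 2 * |F (φ (-(z₀.2 : ℝ)) (b z)) - F p| := by
    intro z z₀
    have h4 : |(z.2 : ℝ) - z₀.2| ≤ 2 * δ := by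
      have h5 := z.2.2
      have h6 := z₀.2.2
      rw [abs_le]
      constructor
      · linarith [h5.1, h6.2]
      · linarith [h5.2, h6.1]
    have h7 := hkey z.1 z.1.2.1 _ h4
    rw [hback, ← z.1.2.2]
    linarith
  have hinj : Function.Injective b := by
    intro z z' hzz
    have h8 := hest z z'
    rw [hzz, hback, sub_self, h0, z'.1.2.2, sub_self, abs_zero, mul_zero] at h8
    have h9 : (z.2 : ℝ) = z'.2 := by
      have := abs_nonpos_iff.1 h8
      linarith
    have h10 : (z.1 : X) = z'.1 := by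
      have e1 := hback z z.2
      have e2 := hback z' z'.2
      rw [sub_self, h0] at e1 e2
      rw [← e1, ← e2, hzz, h9]
    exact Prod.ext (Subtype.ext h10) (Subtype.ext h9)
  have hind : IsInducing b := by
    rw [isInducing_iff_nhds]
    intro z₀
    apply le_antisymm
    · exact (hb.tendsto z₀).le_comap
    · have hl : Filter.Tendsto b (Filter.comap b (𝓝 (b z₀))) (𝓝 (b z₀)) :=
        Filter.tendsto_comap
      have ht : Filter.Tendsto (fun z : ↥S × ↥(Icc (-δ) δ) => (z.2 : ℝ))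
          (Filter.comap b (𝓝 (b z₀))) (𝓝 (z₀.2 : ℝ)) := by
        rw [tendsto_iff_dist_tendsto_zero]
        have h11 : Filter.Tendsto (fun z => 2 * |F (φ (-(z₀.2 : ℝ)) (b z)) - F p|)
            (Filter.comap b (𝓝 (b z₀))) (𝓝 0) := by
          have h12 : Filter.Tendsto (fun y => 2 * |F (φ (-(z₀.2 : ℝ)) y) - F p|)
              (𝓝 (b z₀)) (𝓝 (2 * |F (φ (-(z₀.2 : ℝ)) (b z₀)) - F p|)) := by
            apply Continuous.tendsto
            exact continuous_const.mul ((hF.comp (hφx _)).sub continuous_const).abs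
          rw [hback, sub_self, h0, z₀.1.2.2, sub_self, abs_zero, mul_zero] at h12
          exact h12.comp hl
        refine squeeze_zero (fun _ => dist_nonneg) (fun z => ?_) h11
        rw [Real.dist_eq]
        exact hest z z₀
      have hx : Filter.Tendsto (fun z : ↥S × ↥(Icc (-δ) δ) => (z.1 : X))
          (Filter.comap b (𝓝 (b z₀))) (𝓝 (z₀.1 : X)) := by
        have h13 : Filter.Tendsto (fun z : ↥S × ↥(Icc (-δ) δ) => φ (-(z.2 : ℝ)) (b z))
            (Filter.comap b (𝓝 (b z₀))) (𝓝 (φ (-(z₀.2 : ℝ)) (b z₀))) :=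
          (hφ.tendsto (-(z₀.2 : ℝ), b z₀)).comp (ht.neg.prodMk_nhds hl)
        rw [hback, sub_self, h0] at h13
        refine h13.congr fun z => ?_
        rw [hback, sub_self, h0]
      have h14 : Filter.Tendsto (fun z : ↥S × ↥(Icc (-δ) δ) => z)
          (Filter.comap b (𝓝 (b z₀))) (𝓝 z₀) := by
        have h15 : Filter.Tendsto (fun z : ↥S × ↥(Icc (-δ) δ) => z.1)
          (Filter.comap b (𝓝 (b z₀))) (𝓝 z₀.1) := tendsto_subtype_rng.2 hx
        have h16 : Filter.Tendsto (fun z : ↥S × ↥(Icc (-δ) δ) => z.2)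
          (Filter.comap b (𝓝 (b z₀))) (𝓝 z₀.2) := tendsto_subtype_rng.2 ht
        exact h15.prodMk_nhds h16
      exact h14
  have hemb : IsEmbedding b := ⟨hind, hinj⟩
  refine ⟨Set.range b, ?_, S, ⟨hemb.toHomeomorph.symm.trans
    ((Homeomorph.refl _).prodCongr (iccHomeoI (-δ) δ (by linarith)))⟩⟩
  -- the range is a neighbourhood of `p`
  have hpW : p ∈ W := Metric.mem_ball_self hε
  have h15 : ∀ᶠ q : ℝ × X in 𝓝 ((0 : ℝ), p), φ q.1 q.2 ∈ W := by
    have : Filter.Tendsto (fun q : ℝ × X => φ q.1 q.2) (𝓝 ((0 : ℝ), p)) (𝓝 p) := by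
      have := hφ.tendsto ((0 : ℝ), p)
      simpa only [h0] using this
    exact this.eventually (Metric.isOpen_ball.mem_nhds hpW)
  obtain ⟨η, hη, hηW⟩ := Metric.eventually_nhds_iff.1 h15
  let δ' : ℝ := min δ (η / 2)
  have hδ' : 0 < δ' := lt_min hδ (by positivity)
  have hδδ : δ' ≤ δ := min_le_left _ _
  have hδη : δ' < η := (min_le_right _ _).trans_lt (by linarith)
  have hab : |δ'| ≤ 2 * δ := by rw [abs_of_pos hδ']; linarith
  have hab' : |-δ'| ≤ 2 * δ := by rwa [abs_neg]
  have hz : |(0 : ℝ)| ≤ 2 * δ := by simp; positivity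
  have e1 : F p < F (φ δ' p) := by
    have := hpos p hpW 0 δ' hδ'.le hz hab
    rw [h0] at this
    linarith
  have e2 : F (φ (-δ') p) < F p := by
    have := hpos p hpW (-δ') 0 (by linarith) hab' hz
    rw [h0] at this
    linarith
  have e3 : ∀ᶠ y in 𝓝 p, F p < F (φ δ' y) :=
    ((hF.comp (hφx δ')).tendsto p).eventually (lt_mem_nhds e1)
  have e4 : ∀ᶠ y in 𝓝 p, F (φ (-δ') y) < F p :=
    ((hF.comp (hφx (-δ'))).tendsto p).eventually (gt_mem_nhds e2)
  have e5 : ∀ᶠ y in 𝓝 p, dist y p < η := Metric.ball_mem_nhds p hη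
  filter_upwards [e3, e4, e5] with y h3 h4 h5
  obtain ⟨s, hs, hsF⟩ := intermediate_value_Icc (a := -δ') (b := δ') (by linarith)
    (f := fun s => F (φ s y)) (hF.comp (hφc y)).continuousOn ⟨h4.le, h3.le⟩
  have hsW : φ s y ∈ W := by
    apply hηW (y := (s, y))
    rw [Prod.dist_eq, max_lt_iff]
    refine ⟨?_, h5⟩
    rw [Real.dist_eq, sub_zero]
    exact (abs_le.2 ⟨hs.1, hs.2⟩).trans_lt hδη
  refine ⟨(⟨φ s y, hsW, hsF⟩, ⟨-s, by linarith [hs.2], by linarith [hs.1]⟩), ?_⟩
  simp only [b]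
  rw [← hadd, neg_add_cancel, h0]

end Pool.Agent.LPR.H41
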